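import Mathlib
import Pool.Agent.H30Gr

set_option autoImplicit false

namespace Pool.Agent.Results.MP_cb51c9_co.CeilForm

open Pool.Agent.H30Gr

theorem result :
    (∃ g : ℕ → ℕ, IsGreedy g) ∧ ∀ g : ℕ → ℕ, IsGreedy g → Set.range g = Target aC :=
  ⟨exists_greedy, fun _ hg => range_eq hg⟩

end Pool.Agent.Results.MP_cb51c9_co.CeilForm
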