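import Mathlib
import Pool.Agent.H30Gr

set_option autoImplicit false

namespace Pool.Agent.Results.MP_cb51c9_co.FloorForm

open Pool.Agent.H30Gr

theorem result :
    (∃ g : ℕ → ℕ, IsGreedy g) ∧ ∀ g : ℕ → ℕ, IsGreedy g → Set.range g ≠ Target aF := by
  refine ⟨exists_greedy, fun g hg e => ?_⟩
  have h0 : aF 0 = 0 := by rw [aF]
  have h1 : aF 1 = 2 := by
    rw [aF, Fin.sum_univ_eq_sum_range (fun j => aF j) (0 + 1), Finset.sum_range_succ,
      Finset.sum_range_zero, h0, Nat.floor_eq_iff (by norm_num)]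
    norm_num
  have hF : Free (Target aF) := by rw [← e, range_eq hg]; exact free_target
  have m0 : 0 ∈ Target aF := ⟨∅, 0, by omega, by simp⟩
  have m4 : 4 ∈ Target aF := ⟨∅, 4, by omega, by simp⟩
  have m10 : 10 ∈ Target aF := ⟨{1}, 0, by omega, by simp [h1]⟩
  have := hF 4 m4 0 m0 0 m0 10 m10 (by norm_num)
  omega

end Pool.Agent.Results.MP_cb51c9_co.FloorForm
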